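import Mathlib
import Pool.Agent.H10.RP.Stm
import Pool.Graph.R_pool_sql_team_seeded_63374d34.N892.BW.RTT
import Pool.Graph.R_pool_sql_team_seeded_63374d34.N892.BW.LPS_B
import Pool.Graph.R_pool_sql_team_seeded_63374d34.N892.BW.MUL
import Pool.Graph.R_pool_sql_team_seeded_63374d34.N892.BW.BAS
import Pool.Graph.R_pool_sql_team_seeded_63374d34.N892.BW.CNV

/-!
RP/RTM: interpolation of Riesz and Thorin for Fourier multipliers with smooth symbols with compact support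
(the discretisation is the one of the library file N892/BW/RTT, by helper310). By helper29.
-/

set_option autoImplicit false

open MeasureTheory Filter Topology Complex Set
open scoped ComplexConjugate ENNReal SchwartzMap ContDiff FourierTransform

namespace Pool.Agent.H29.RP.RTM

open Pool.Agent.N892.BW Pool.Agent.N892.BW.RTT

/-- linear operators with continuous values -/
def Lin (T : 𝓢(ℂ, ℂ) → ℂ → ℂ) : Prop := (∀ f, Continuous (T f)) ∧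
  (∀ f g x, T (f - g) x = T f x - T g x) ∧
  ∀ (S : Finset (ℤ × ℤ)) (a : ℤ × ℤ → ℂ) (f : ℤ × ℤ → 𝓢(ℂ, ℂ)) (x : ℂ),
    T (∑ i ∈ S, a i • f i) x = ∑ i ∈ S, a i * T (f i) x

/-- the bound for all Schwartz functions, as an inequality between integrals -/
def Bo (T : 𝓢(ℂ, ℂ) → ℂ → ℂ) (q K : ℝ) : Prop := ∀ f : 𝓢(ℂ, ℂ),
  ∫⁻ x, ‖T f x‖ₑ ^ q ≤ ENNReal.ofReal K ^ q * ∫⁻ x, ‖f x‖ₑ ^ q

theorem Av_TS {L L' : ℝ} (hL : 0 < L) (hL' : 0 < L') {T : 𝓢(ℂ, ℂ) → ℂ → ℂ} (hT : Lin T) (M : ℕ) (m : ℤ × ℤ) (a : ℤ × ℤ → ℂ) :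
    Av L' m (T (sn hL M a)) = ∑ i ∈ Bx M, a i * Av L' m (T (Fi' hL i)) := by
  have h1 : T (sn hL M a) = fun x => ∑ i ∈ Bx M, a i * T (Fi' hL i) x := by
    funext x
    unfold sn
    rw [hT.2.2]
  rw [h1, Av_sum hL' m (Bx M) a (fun i => T (Fi' hL i)) fun i => hT.1 _]

theorem edge {L L' : ℝ} (hL : 0 < L) (hL' : 0 < L') {T : 𝓢(ℂ, ℂ) → ℂ → ℂ} (hT : Lin T) {q K : ℝ} (hq : 1 < q) (hK : 0 < K)
    (hB : Bo T q K) (M : ℕ) (S' : Finset (ℤ × ℤ)) (a : ℤ × ℤ → ℂ) :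
    ∑ m ∈ S', ‖∑ i ∈ Bx M, a i * Av L' m (T (Fi' hL i))‖ ^ q ≤
      (K * (L' ^ 2 / L ^ 2) ^ (1 / q)) ^ q * ∑ i ∈ Bx M, ‖a i‖ ^ q := by
  have hq0 : 0 < q := by linarith
  have hR : 0 ≤ (K * (L' ^ 2 / L ^ 2) ^ (1 / q)) ^ q * ∑ i ∈ Bx M, ‖a i‖ ^ q := by positivity
  rw [← ENNReal.ofReal_le_ofReal_iff hR, conv S' _ hq0, ENNReal.ofReal_mul (by positivity),
    conv (Bx M) a hq0]
  simp only [← Av_TS hL hL' hT M _ a]
  have h1 := Av_pow_sum hL' S' (hT.1 (sn hL M a)) hq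
  have h2 := hB (sn hL M a)
  have h3 := sn_norm hL M a hq
  have h4 : ENNReal.ofReal ((K * (L' ^ 2 / L ^ 2) ^ (1 / q)) ^ q) =
      cc L' * (ENNReal.ofReal K ^ q * (cc L)⁻¹) := by
    rw [Real.mul_rpow hK.le (by positivity), ← Real.rpow_mul (by positivity),
      one_div_mul_cancel hq0.ne', Real.rpow_one, cc, cc, ← ENNReal.ofReal_inv_of_pos (by positivity),
      ENNReal.ofReal_rpow_of_pos hK, ← ENNReal.ofReal_mul (by positivity),
      ← ENNReal.ofReal_mul (by positivity)]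
    congr 1
    field_simp
  rw [h4]
  calc _ ≤ cc L' * ∫⁻ x, ‖T (sn hL M a) x‖ₑ ^ q := h1
    _ ≤ cc L' * (ENNReal.ofReal K ^ q * ((∑ i ∈ Bx M, ‖a i‖ₑ ^ q) * (cc L)⁻¹)) := by
        refine mul_le_mul_right (h2.trans (mul_le_mul_right h3 _)) _
    _ = _ := by ring

/-- the discrete inequality for the intermediate exponent -/
theorem disc {L' : ℝ} (hL' : 0 < L') {T : 𝓢(ℂ, ℂ) → ℂ → ℂ} (hT : Lin T) {p₀ p₁ p θ K₀ K₁ : ℝ} (hp0 : 1 < p₀)
    (hlt0 : p₀ < p) (hlt1 : p < p₁) (hth : 1 / p = (1 - θ) / p₀ + θ / p₁) (hK0 : 0 < K₀)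
    (hK1 : 0 < K₁) (B0 : Bo T p₀ K₀) (B1 : Bo T p₁ K₁) (N : ℕ) (S' : Finset (ℤ × ℤ)) (f : 𝓢(ℂ, ℂ)) :
    ∑ m ∈ S', ‖Av L' m (T (ap N f))‖ₑ ^ p ≤
      ENNReal.ofReal (K₀ ^ (1 - θ) * K₁ ^ θ) ^ p * (cc L' * ∫⁻ x, ‖f x‖ₑ ^ p) := by
  have hL := LL_pos N
  set L := LL N with hLdef
  have hp : 1 < p := by linarith
  have hp' : 0 < p := by linarith
  have hp00 : 0 < p₀ := by linarith
  have hp10 : 0 < p₁ := by linarith
  have hlt : 1 / p₁ < 1 / p₀ := one_div_lt_one_div_of_lt hp00 (by linarith)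
  have hs : 1 - θ = (1 / p - 1 / p₁) / (1 / p₀ - 1 / p₁) := by
    rw [eq_div_iff (by linarith), hth]
    ring
  set ρ : ℝ := L' ^ 2 / L ^ 2 with hρ
  have hρ0 : 0 < ρ := by positivity
  have key := rt3 p₀ p₁ p (K₀ * ρ ^ (1 / p₀)) (K₁ * ρ ^ (1 / p₁)) hp0 hlt0 hlt1 (by positivity)
    (by positivity) (Bx (MM N)) S' (fun m i => Av L' m (T (Fi' hL i)))
    (fun a => edge hL hL' hT hp0 hK0 B0 (MM N) S' a)
    (fun a => edge hL hL' hT (by linarith) hK1 B1 (MM N) S' a) (1 - θ) hs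
    (fun i => Av L i f)
  simp only [← Av_TS hL hL' hT (MM N) _ (fun i => Av L i f)] at key
  have hconst : ((K₁ * ρ ^ (1 / p₁)) ^ (1 - (1 - θ)) * (K₀ * ρ ^ (1 / p₀)) ^ (1 - θ)) ^ p =
      (K₀ ^ (1 - θ) * K₁ ^ θ) ^ p * ρ := by
    rw [Real.mul_rpow hK1.le (by positivity), Real.mul_rpow hK0.le (by positivity),
      ← Real.rpow_mul hρ0.le, ← Real.rpow_mul hρ0.le]
    have e1 : K₁ ^ (1 - (1 - θ)) * ρ ^ (1 / p₁ * (1 - (1 - θ))) *
        (K₀ ^ (1 - θ) * ρ ^ (1 / p₀ * (1 - θ))) = (K₀ ^ (1 - θ) * K₁ ^ θ) * ρ ^ (1 / p) := by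
      have e2 : (1 : ℝ) / p = 1 / p₁ * (1 - (1 - θ)) + 1 / p₀ * (1 - θ) := by rw [hth]; ring
      rw [e2, Real.rpow_add hρ0, sub_sub_cancel]
      ring
    rw [e1, Real.mul_rpow (by positivity) (by positivity), ← Real.rpow_mul hρ0.le,
      one_div_mul_cancel hp'.ne', Real.rpow_one]
  rw [hconst] at key
  have h5 := ENNReal.ofReal_le_ofReal key
  rw [conv S' _ hp', ENNReal.ofReal_mul (by positivity), conv (Bx (MM N)) _ hp',
    ENNReal.ofReal_mul (by positivity)] at h5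
  have h6 : ENNReal.ofReal ρ = cc L' * (cc L)⁻¹ := by
    rw [cc, cc, ← ENNReal.ofReal_inv_of_pos (by positivity), ← ENNReal.ofReal_mul (by positivity), hρ]
    congr 1
  have h7 := Av_pow_sum hL (Bx (MM N)) f.continuous hp
  obtain ⟨c0, ct⟩ := cc_ne hL
  rw [h6, ← ENNReal.ofReal_rpow_of_pos (by positivity)] at h5
  refine h5.trans ?_
  calc ENNReal.ofReal (K₀ ^ (1 - θ) * K₁ ^ θ) ^ p * (cc L' * (cc L)⁻¹) *
        ∑ m ∈ Bx (MM N), ‖Av L m f‖ₑ ^ p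
      ≤ ENNReal.ofReal (K₀ ^ (1 - θ) * K₁ ^ θ) ^ p * (cc L' * (cc L)⁻¹) *
        (cc L * ∫⁻ x, ‖f x‖ₑ ^ p) := mul_le_mul_right h7 _
    _ = ENNReal.ofReal (K₀ ^ (1 - θ) * K₁ ^ θ) ^ p * (cc L' * (((cc L)⁻¹ * cc L) *
        ∫⁻ x, ‖f x‖ₑ ^ p)) := by ring
    _ = _ := by rw [ENNReal.inv_mul_cancel c0 ct, one_mul]

/-- the limit of the input grids -/
theorem disc2 {L' : ℝ} (hL' : 0 < L') {T : 𝓢(ℂ, ℂ) → ℂ → ℂ} (hT : Lin T) {p₀ p₁ p θ K₀ K₁ : ℝ} (hp0 : 2 ≤ p₀)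
    (hlt0 : p₀ < p) (hlt1 : p < p₁) (hth : 1 / p = (1 - θ) / p₀ + θ / p₁) (hK0 : 0 < K₀)
    (hK1 : 0 < K₁) (B0 : Bo T p₀ K₀) (B1 : Bo T p₁ K₁) (S' : Finset (ℤ × ℤ)) (f : 𝓢(ℂ, ℂ)) :
    ∑ m ∈ S', ‖Av L' m (T f)‖ₑ ^ p ≤
      ENNReal.ofReal (K₀ ^ (1 - θ) * K₁ ^ θ) ^ p * (cc L' * ∫⁻ x, ‖f x‖ₑ ^ p) := by
  have hp00 : 0 < p₀ := by linarith
  have hp' : 0 < p := by linarith
  have hav : ∀ m, Tendsto (fun N => Av L' m (T (ap N f))) atTop (𝓝 (Av L' m (T f))) := by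
    intro m
    have h1 : ∀ N, Av L' m (T (ap N f - f)) = Av L' m (T (ap N f)) - Av L' m (T f) := by
      intro N
      have h2 : T (ap N f - f) = fun x => T (ap N f) x - T f x := by
        funext x
        exact hT.2.1 _ _ x
      rw [h2]
      unfold Av
      rw [integral_sub (Ec_int hL' m (hT.1 _)) (Ec_int hL' m (hT.1 _)), mul_sub]
    have h3 : ∀ N, ‖Av L' m (T (ap N f - f))‖ₑ ^ p₀ ≤
        cc L' * (ENNReal.ofReal K₀ ^ p₀ * ∫⁻ x, ‖(ap N f - f) x‖ₑ ^ p₀) := by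
      intro N
      refine (Av_pow hL' m (hT.1 _) (by linarith)).trans (mul_le_mul_right ?_ _)
      exact (setLIntegral_le_lintegral _ _).trans (B0 (ap N f - f))
    have h4 : Tendsto (fun N => cc L' * (ENNReal.ofReal K₀ ^ p₀ *
        ∫⁻ x, ‖(ap N f - f) x‖ₑ ^ p₀)) atTop (𝓝 0) := by
      have h5 := ap_Lp f hp0
      have h6 := ENNReal.Tendsto.const_mul (a := ENNReal.ofReal K₀ ^ p₀) h5
        (Or.inr (ENNReal.rpow_ne_top_of_nonneg hp00.le ENNReal.ofReal_ne_top))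
      have h7 := ENNReal.Tendsto.const_mul (a := cc L') h6 (Or.inr (cc_ne hL').2)
      simpa using h7
    have h8 : Tendsto (fun N => ‖Av L' m (T (ap N f - f))‖ₑ ^ p₀) atTop (𝓝 0) :=
      tendsto_of_tendsto_of_tendsto_of_le_of_le tendsto_const_nhds h4 (fun _ => zero_le) h3
    have h9 : Tendsto (fun N => ‖Av L' m (T (ap N f - f))‖ₑ) atTop (𝓝 0) := by
      have h10 := ((ENNReal.continuous_rpow_const (y := p₀⁻¹)).tendsto 0).comp h8
      rw [ENNReal.zero_rpow_of_pos (inv_pos.2 hp00)] at h10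
      refine h10.congr fun N => ?_
      exact ENNReal.rpow_rpow_inv hp00.ne' _
    have h11 : Tendsto (fun N => ‖Av L' m (T (ap N f - f))‖) atTop (𝓝 0) := by
      have h12 := (ENNReal.tendsto_toReal (a := 0) ENNReal.zero_ne_top).comp h9
      refine h12.congr fun N => ?_
      simp
    have h13 := tendsto_zero_iff_norm_tendsto_zero.2 h11
    simp only [h1] at h13
    exact tendsto_sub_nhds_zero_iff.1 h13
  have hlim : Tendsto (fun N => ∑ m ∈ S', ‖Av L' m (T (ap N f))‖ₑ ^ p) atTop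
      (𝓝 (∑ m ∈ S', ‖Av L' m (T f)‖ₑ ^ p)) := by
    refine tendsto_finsetSum _ fun m _ => ?_
    exact ((ENNReal.continuous_rpow_const (y := p)).tendsto _).comp
      ((continuous_enorm.tendsto _).comp (hav m))
  exact le_of_tendsto' hlim fun N => disc hL' hT (by linarith) hlt0 hlt1 hth hK0 hK1 B0 B1 N S' f


theorem main {T : 𝓢(ℂ, ℂ) → ℂ → ℂ} (hT : Lin T) {p₀ p₁ p θ K₀ K₁ : ℝ} (hp0 : 2 ≤ p₀) (hlt0 : p₀ < p) (hlt1 : p < p₁)
    (hth : 1 / p = (1 - θ) / p₀ + θ / p₁) (hK0 : 0 < K₀) (hK1 : 0 < K₁) (B0 : Bo T p₀ K₀)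
    (B1 : Bo T p₁ K₁) : Bo T p (K₀ ^ (1 - θ) * K₁ ^ θ) := by
  intro f
  have hcont := hT.1 f
  have hle : ∀ N, ∫⁻ x, St N p (T f) x ≤
      ENNReal.ofReal (K₀ ^ (1 - θ) * K₁ ^ θ) ^ p * ∫⁻ x, ‖f x‖ₑ ^ p := by
    intro N
    rw [St_int]
    obtain ⟨c0, ct⟩ := cc_ne (LL_pos N)
    have h1 := disc2 (LL_pos N) hT hp0 hlt0 hlt1 hth hK0 hK1 B0 B1 (Bx (MM N)) f
    calc _ ≤ (ENNReal.ofReal (K₀ ^ (1 - θ) * K₁ ^ θ) ^ p * (cc (LL N) * ∫⁻ x, ‖f x‖ₑ ^ p)) *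
          (cc (LL N))⁻¹ := mul_le_mul_left h1 _
      _ = ENNReal.ofReal (K₀ ^ (1 - θ) * K₁ ^ θ) ^ p * ((cc (LL N) * (cc (LL N))⁻¹) *
          ∫⁻ x, ‖f x‖ₑ ^ p) := by ring
      _ = _ := by rw [ENNReal.mul_inv_cancel c0 ct, one_mul]
  calc ∫⁻ x, ‖T f x‖ₑ ^ p = ∫⁻ x, liminf (fun N => St N p (T f) x) atTop := by
        refine lintegral_congr fun x => ?_
        exact (St_lim hcont p x).liminf_eq.symm
    _ ≤ liminf (fun N => ∫⁻ x, St N p (T f) x) atTop :=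
        lintegral_liminf_le fun N => St_meas N p _
    _ ≤ _ := by
        refine (liminf_le_liminf (Eventually.of_forall hle)).trans ?_
        rw [liminf_const]


/-- the convolution operator -/
noncomputable def CO (k : ℂ → ℂ) (f : 𝓢(ℂ, ℂ)) (x : ℂ) : ℂ := ∫ z, k (x - z) * f z

theorem CO_int {k : ℂ → ℂ} (hk : Continuous k) {M : ℝ} (hM : ∀ x, ‖k x‖ ≤ M) (f : 𝓢(ℂ, ℂ)) (x : ℂ) :
    Integrable fun z => k (x - z) * f z := by
  refine f.integrable.bdd_mul (c := M) ?_ ?_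
  · exact (hk.comp (continuous_const.sub continuous_id)).aestronglyMeasurable
  · exact Eventually.of_forall fun z => hM _

theorem CO_lin {k : ℂ → ℂ} (hk : Continuous k) {M : ℝ} (hM : ∀ x, ‖k x‖ ≤ M) : Lin (CO k) := by
  refine ⟨fun f => ?_, fun f g x => ?_, fun S a f x => ?_⟩
  · refine continuous_of_dominated (bound := fun z => M * ‖f z‖) (fun x => ?_)
      (fun x => Eventually.of_forall fun z => ?_) (f.integrable.norm.const_mul M)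
      (Eventually.of_forall fun z => ?_)
    · exact (CO_int hk hM f x).aestronglyMeasurable
    · rw [norm_mul]
      exact mul_le_mul_of_nonneg_right (hM _) (norm_nonneg _)
    · exact (hk.comp (continuous_id.sub continuous_const)).mul continuous_const
  · unfold CO
    rw [← integral_sub (CO_int hk hM f x) (CO_int hk hM g x)]
    refine integral_congr_ae (Eventually.of_forall fun z => ?_)
    simp only
    rw [sub_apply]
    ring
  · unfold CO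
    have h1 : ∀ i ∈ S, Integrable fun z => a i * (k (x - z) * f i z) := fun i _ =>
      (CO_int hk hM (f i) x).const_mul _
    simp only [← integral_const_mul]
    rw [← integral_finsetSum S h1]
    refine integral_congr_ae (Eventually.of_forall fun z => ?_)
    simp only
    rw [sum_apply, Finset.mul_sum]
    refine Finset.sum_congr rfl fun i _ => ?_
    rw [smul_apply, smul_eq_mul]
    ring

theorem F_eq (f : 𝓢(ℂ, ℂ)) (ξ : ℂ) : (𝓕 f : 𝓢(ℂ, ℂ)) ξ = ∫ z, conj (e2 z ξ) * f z := by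
  rw [← Ft_eq]
  refine integral_congr_ae (Eventually.of_forall fun z => ?_)
  simp only
  congr 1
  unfold e2
  rw [← Complex.exp_conj]
  congr 1
  simp only [map_mul, Complex.conj_I, Complex.conj_ofReal, map_ofNat]
  ring

theorem CO_eq {b : ℝ} {ν : ℂ → ℂ} (hν : Bd 0 b ν) (f : 𝓢(ℂ, ℂ)) (x : ℂ) :
    CO (Fi ν) f x = Fi (fun ξ => ν ξ * (𝓕 f : 𝓢(ℂ, ℂ)) ξ) x := by
  have e1 : Fi (fun ξ => ν ξ * (𝓕 f : 𝓢(ℂ, ℂ)) ξ) x =
      ∫ ξ, ∫ z, (e2 x ξ * ν ξ) * (conj (e2 z ξ) * f z) := by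
    refine integral_congr_ae (Eventually.of_forall fun ξ => ?_)
    show e2 x ξ * (ν ξ * (𝓕 f : 𝓢(ℂ, ℂ)) ξ) = ∫ z, (e2 x ξ * ν ξ) * (conj (e2 z ξ) * f z)
    rw [integral_const_mul, ← F_eq f ξ]
    ring
  have e2' : CO (Fi ν) f x = ∫ z, ∫ ξ, (e2 x ξ * ν ξ) * (conj (e2 z ξ) * f z) := by
    refine integral_congr_ae (Eventually.of_forall fun z => ?_)
    show Fi ν (x - z) * f z = ∫ ξ, (e2 x ξ * ν ξ) * (conj (e2 z ξ) * f z)
    have : (fun ξ => (e2 x ξ * ν ξ) * (conj (e2 z ξ) * f z)) =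
        fun ξ => (e2 (x - z) ξ * ν ξ) * f z := by
      funext ξ
      rw [CNV.e2_sub]
      ring
    rw [this, integral_mul_const]
    rfl
  rw [e1, e2']
  refine (integral_integral_swap ?_).symm
  have hνi : Integrable ν := CNV.Bd.integrable hν
  refine Integrable.mono' (g := fun p : ℂ × ℂ => ‖ν p.1‖ * ‖f p.2‖)
    (hνi.norm.mul_prod f.integrable.norm) ?_ ?_
  · refine Continuous.aestronglyMeasurable ?_
    have c1 : Continuous fun p : ℂ × ℂ => e2 x p.1 :=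
      CNV.cont_e2.comp (continuous_const.prodMk continuous_fst)
    have c2 : Continuous fun p : ℂ × ℂ => e2 p.2 p.1 :=
      CNV.cont_e2.comp (continuous_snd.prodMk continuous_fst)
    have c3 : Continuous fun p : ℂ × ℂ => ν p.1 := hν.1.continuous.comp continuous_fst
    have c4 : Continuous fun p : ℂ × ℂ => f p.2 := f.continuous.comp continuous_snd
    exact (c1.mul c3).mul ((Complex.continuous_conj.comp c2).mul c4)
  · refine Eventually.of_forall fun p => ?_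
    show ‖(e2 x p.1 * ν p.1) * (conj (e2 p.2 p.1) * f p.2)‖ ≤ _
    rw [norm_mul, norm_mul, norm_mul, RCLike.norm_conj, CNV.norm_e2, CNV.norm_e2, one_mul, one_mul]

/-- the constant -/
noncomputable def KK (C : ℝ) : ℝ := (C + 1) * ((∫ x, ‖Fi LPS.th0 x‖) + 1)

theorem KK_pos {C : ℝ} (hC : 0 ≤ C) : 0 < KK C := by
  have h : 0 ≤ ∫ x, ‖Fi LPS.th0 x‖ := integral_nonneg fun _ => norm_nonneg _
  unfold KK
  positivity

/-- the bound for an even exponent, for all Schwartz functions -/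
theorem Bo_even {k : ℕ} (hk : 1 ≤ k) {C B : ℝ} (hC : 0 ≤ C) {μ : ℂ → ℂ} (hμ : Bd 0 B μ)
    (H : ∀ (b : ℝ) (h : ℂ → ℂ), Bd 0 b h →
      Nm k (Fi (fun ξ => μ ξ * h ξ)) ≤ ENNReal.ofReal C * Nm k (Fi h)) :
    Bo (CO (Fi μ)) (2 * (k : ℝ)) (KK C) := by
  intro f
  set j : ℝ := max B 1 with hj
  have hj0 : 0 < j := lt_of_lt_of_le one_pos (le_max_right _ _)
  set h : ℂ → ℂ := fun ξ => lp j ξ * (𝓕 f : 𝓢(ℂ, ℂ)) ξ with hh
  have hlp := LPS.lp_Bd j hj0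
  have hBd : Bd 0 (2 * j) h := by
    refine ⟨hlp.1.mul ((𝓕 f : 𝓢(ℂ, ℂ)).smooth ⊤), fun ξ hξ => hlp.2 ξ (left_ne_zero_of_mul hξ)⟩
  have h1 : ∀ x, CO (Fi μ) f x = Fi (fun ξ => μ ξ * h ξ) x := by
    intro x
    rw [CO_eq hμ f x]
    congr 1
    funext ξ
    by_cases hz : μ ξ = 0
    · rw [hz, zero_mul, zero_mul]
    · have h2 := (hμ.2 ξ hz).2
      rw [hh]
      simp only
      rw [LPF.lp_one j ξ hj0 (h2.trans (le_max_left _ _)), one_mul]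
  have h3 := H (2 * j) h hBd
  have h4 : Nm k (Fi h) ≤ (∫⁻ z, ‖Fi (lp j) z‖ₑ) ^ (2 * k) * ∫⁻ z, ‖f z‖ₑ ^ (2 * k) := by
    have e : ∀ x, Fi h x = ∫ z, Fi (lp j) (x - z) * f z := fun x => (CO_eq hlp f x).symm
    unfold Nm
    simp only [e]
    exact MUL.yng k hk (Fi (lp j)) f (BAS.t _ _ hlp).1.measurable f.continuous.measurable
  obtain ⟨hmi, hme⟩ := LPS.lp_mass BAS.t j hj0
  have h5 : (∫⁻ z, ‖Fi (lp j) z‖ₑ) = ENNReal.ofReal (∫ x, ‖Fi LPS.th0 x‖) := by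
    rw [← hme, ofReal_integral_norm_eq_lintegral_enorm hmi]
  set L : ℝ := ∫ x, ‖Fi LPS.th0 x‖ with hL
  have hL0 : 0 ≤ L := integral_nonneg fun _ => norm_nonneg _
  have hcast : ∀ u : ℝ≥0∞, u ^ (2 * (k : ℝ)) = u ^ (2 * k) := by
    intro u
    rw [← ENNReal.rpow_natCast]
    push_cast
    rfl
  simp only [hcast, h1]
  calc ∫⁻ x, ‖Fi (fun ξ => μ ξ * h ξ) x‖ₑ ^ (2 * k)
      ≤ ENNReal.ofReal C * Nm k (Fi h) := h3
    _ ≤ ENNReal.ofReal C * ((∫⁻ z, ‖Fi (lp j) z‖ₑ) ^ (2 * k) * ∫⁻ z, ‖f z‖ₑ ^ (2 * k)) :=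
        mul_le_mul_right h4 _
    _ = (ENNReal.ofReal C * ENNReal.ofReal L ^ (2 * k)) * ∫⁻ z, ‖f z‖ₑ ^ (2 * k) := by
        rw [h5, mul_assoc]
    _ ≤ ENNReal.ofReal (KK C) ^ (2 * k) * ∫⁻ z, ‖f z‖ₑ ^ (2 * k) := by
        refine mul_le_mul_left ?_ _
        rw [← ENNReal.ofReal_pow hL0, ← ENNReal.ofReal_mul hC,
          ← ENNReal.ofReal_pow (KK_pos hC).le]
        refine ENNReal.ofReal_le_ofReal ?_
        unfold KK
        rw [mul_pow]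
        have hp1 : C ≤ (C + 1) ^ (2 * k) := by
          have h2 : (C + 1) ^ 1 ≤ (C + 1) ^ (2 * k) := pow_le_pow_right₀ (by linarith) (by omega)
          linarith
        have hp2 : L ^ (2 * k) ≤ (L + 1) ^ (2 * k) := pow_le_pow_left₀ hL0 (by linarith) _
        exact mul_le_mul hp1 hp2 (by positivity) (by positivity)

theorem t : Pool.Agent.H10.RP.R_RTM := by
  intro k m C hk hkm hmk hC
  have hK := KK_pos hC
  have hk1 : (1 : ℝ) ≤ k := by exact_mod_cast hk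
  refine ⟨KK C ^ (2 * m), by positivity, ?_⟩
  intro B μ hμ H0 H1 b h hh
  have B0 := Bo_even hk hC hμ H0
  have B1 := Bo_even (k := k + 1) (by omega) hC hμ H1
  obtain ⟨hc, -, ⟨-, -, M, hM⟩, -, -⟩ := BAS.t B μ hμ
  have hlin := CO_lin hc hM
  have key : Bo (CO (Fi μ)) (2 * m) (KK C) := by
    rcases hkm.eq_or_lt with h1 | h1
    · rw [← h1]; exact B0
    rcases hmk.eq_or_lt with h2 | h2
    · rw [h2]
      have : (2 : ℝ) * ((k : ℝ) + 1) = 2 * ((k + 1 : ℕ) : ℝ) := by push_cast; ring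
      rw [this]; exact B1
    set θ : ℝ := (1 / (2 * (k : ℝ)) - 1 / (2 * m)) / (1 / (2 * (k : ℝ)) - 1 / (2 * ((k + 1 : ℕ) : ℝ)))
      with hθ
    have hm0 : 0 < m := by linarith
    have hd : 1 / (2 * (k : ℝ)) - 1 / (2 * ((k + 1 : ℕ) : ℝ)) ≠ 0 := by
      have : 1 / (2 * ((k + 1 : ℕ) : ℝ)) < 1 / (2 * (k : ℝ)) := by
        apply one_div_lt_one_div_of_lt
        · positivity
        · push_cast; linarith
      linarith
    have hth : 1 / (2 * m) = (1 - θ) / (2 * (k : ℝ)) + θ / (2 * ((k + 1 : ℕ) : ℝ)) := by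
      have h3 : θ * (1 / (2 * (k : ℝ)) - 1 / (2 * ((k + 1 : ℕ) : ℝ))) =
          1 / (2 * (k : ℝ)) - 1 / (2 * m) := by
        rw [hθ, div_mul_cancel₀ _ hd]
      have h4 : (1 - θ) / (2 * (k : ℝ)) + θ / (2 * ((k + 1 : ℕ) : ℝ)) =
          1 / (2 * (k : ℝ)) - θ * (1 / (2 * (k : ℝ)) - 1 / (2 * ((k + 1 : ℕ) : ℝ))) := by ring
      rw [h4, h3]
      ring
    have := main hlin (p₀ := 2 * (k : ℝ)) (p₁ := 2 * ((k + 1 : ℕ) : ℝ)) (p := 2 * m) (θ := θ)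
      (by linarith) (by linarith) (by push_cast; linarith) hth hK hK B0 B1
    rwa [← Real.rpow_add hK, sub_add_cancel, Real.rpow_one] at this
  obtain ⟨g, hg⟩ : ∃ g : 𝓢(ℂ, ℂ), Fi h = g := ⟨_, BAS.Fi_fun hh⟩
  have e1 : ∀ x, CO (Fi μ) g x = Fi (fun ξ => μ ξ * h ξ) x := by
    intro x
    have hmu : Bd 0 (max B b) μ := LPS.Bd_mono hμ (le_max_left _ _)
    have hhb : Bd 0 (max B b) h := LPS.Bd_mono hh (le_max_right _ _)
    rw [(CNV.t BAS.t _ μ h hmu hhb x).2]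
    unfold CO
    rw [← hg]
  have h2 := key g
  simp only [e1] at h2
  unfold Pool.Agent.H10.RP.Nr
  rw [hg]
  rw [ENNReal.ofReal_rpow_of_pos hK] at h2
  exact h2

end Pool.Agent.H29.RP.RTM
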