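import Mathlib
import Pool.Agent.H10.RP.StmT
import Pool.Graph.R_pool_sql_team_seeded_63374d34.N892.BW.NUI

/-!
RP/NB2: numerical values of quotients of Gamma values. By helper29.
-/

set_option autoImplicit false

open Filter Topology Finset

namespace Pool.Agent.H29.RP.NB2

open Pool.Agent.N892.BW Pool.Agent.N892.BW.GAM Pool.Agent.H10.RP

/-- Padé bound of the exponential function -/
lemma pade {x : ℝ} (hx : 0 ≤ x) : 1 + x / 2 + x ^ 2 / 12 ≤ Real.exp x * (1 - x / 2 + x ^ 2 / 12) := by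
  have h1 := Real.sum_le_exp_of_nonneg hx 6
  have h2 : ∑ i ∈ range 6, x ^ i / (i.factorial : ℝ) =
      1 + x + x ^ 2 / 2 + x ^ 3 / 6 + x ^ 4 / 24 + x ^ 5 / 120 := by
    simp only [Finset.sum_range_succ, Finset.sum_range_zero, Nat.factorial]
    norm_num
  rw [h2] at h1
  have h3 : 0 ≤ 1 - x / 2 + x ^ 2 / 12 := by nlinarith [sq_nonneg (x - 3)]
  refine le_trans ?_ (mul_le_mul_of_nonneg_right h1 h3)
  have h4 : (1 + x + x ^ 2 / 2 + x ^ 3 / 6 + x ^ 4 / 24 + x ^ 5 / 120) * (1 - x / 2 + x ^ 2 / 12) -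
      (1 + x / 2 + x ^ 2 / 12) = x ^ 5 / 720 * (1 - x / 2 + x ^ 2 / 2) := by ring
  have h5 : 0 ≤ x ^ 5 / 720 * (1 - x / 2 + x ^ 2 / 2) := by
    refine mul_nonneg (by positivity) ?_
    nlinarith [sq_nonneg (x - 1 / 2)]
  linarith

/-- the second normalisation -/
noncomputable def uu (x : ℝ) (n : ℕ) : ℝ := s x n / ((n : ℝ) ^ 2 + 1 / 12) ^ ((1 - 2 * x) / 2)

lemma base (n : ℕ) : ((n : ℝ) + 1) ^ 2 + 1 / 12 ≤ Real.exp (4 / (2 * n + 1)) * ((n : ℝ) ^ 2 + 1 / 12) := by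
  have hM : (0 : ℝ) < 2 * n + 1 := by positivity
  have h := pade (x := 4 / (2 * (n : ℝ) + 1)) (by positivity)
  have e1 : 1 + 4 / (2 * (n : ℝ) + 1) / 2 + (4 / (2 * (n : ℝ) + 1)) ^ 2 / 12 =
      4 / (2 * (n : ℝ) + 1) ^ 2 * (((n : ℝ) + 1) ^ 2 + 1 / 12) := by
    field_simp
    ring
  have e2 : 1 - 4 / (2 * (n : ℝ) + 1) / 2 + (4 / (2 * (n : ℝ) + 1)) ^ 2 / 12 =
      4 / (2 * (n : ℝ) + 1) ^ 2 * ((n : ℝ) ^ 2 + 1 / 12) := by
    field_simp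
    ring
  rw [e1, e2] at h
  have h2 : 0 < 4 / (2 * (n : ℝ) + 1) ^ 2 := by positivity
  have h3 : Real.exp (4 / (2 * (n : ℝ) + 1)) * (4 / (2 * (n : ℝ) + 1) ^ 2 * ((n : ℝ) ^ 2 + 1 / 12)) =
    4 / (2 * (n : ℝ) + 1) ^ 2 * (Real.exp (4 / (2 * (n : ℝ) + 1)) * ((n : ℝ) ^ 2 + 1 / 12)) := by ring
  rw [h3] at h
  exact le_of_mul_le_mul_left h h2

lemma ratio {x : ℝ} (h0 : 0 < x) (h1 : x < 1 / 2) (n : ℕ) :
    Real.exp (2 * (1 - 2 * x) / (2 * n + 1)) ≤ (1 - x + n) / (x + n) := by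
  have hn : (0 : ℝ) ≤ n := Nat.cast_nonneg n
  have hM : (0 : ℝ) < 2 * n + 1 := by positivity
  set c : ℝ := (1 - 2 * x) / (2 * n + 1) with hc
  have hc0 : 0 < c := div_pos (by linarith) hM
  have hc1 : c < 1 := by rw [hc, div_lt_one hM]; linarith
  have hs := Real.hasSum_log_sub_log_of_abs_lt_one (x := c) (by rw [abs_of_pos hc0]; exact hc1)
  have h2 := sum_le_hasSum (Finset.range 1) (fun k _ => by positivity) hs
  rw [Finset.sum_range_one] at h2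
  norm_num at h2
  have e1 : (1 - x + n) / (x + (n : ℝ)) = (1 + c) / (1 - c) := by
    rw [hc]
    have : (1 - (1 - 2 * x) / (2 * (n : ℝ) + 1)) = 2 * (x + n) / (2 * n + 1) := by
      field_simp
      ring
    rw [this]
    have : (1 + (1 - 2 * x) / (2 * (n : ℝ) + 1)) = 2 * (1 - x + n) / (2 * n + 1) := by
      field_simp
      ring
    rw [this]
    field_simp
  have e2 : 2 * (1 - 2 * x) / (2 * (n : ℝ) + 1) = 2 * c := by rw [hc]; ring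
  rw [e1, e2, ← Real.log_le_log_iff (Real.exp_pos _) (div_pos (by linarith) (by linarith)),
    Real.log_exp, Real.log_div (by linarith) (by linarith)]
  linarith

lemma uu_mono {x : ℝ} (h0 : 0 < x) (h1 : x < 1 / 2) (n : ℕ) : uu x n ≤ uu x (n + 1) := by
  have hn : (0 : ℝ) ≤ n := Nat.cast_nonneg n
  have hs := s_pos h0 h1 n
  have hu : 0 ≤ (1 - 2 * x) / 2 := by linarith
  have hM : (0 : ℝ) < 2 * n + 1 := by positivity
  have e1 : s x (n + 1) = s x n * ((1 - x + n) / (x + n)) := by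
    unfold s
    rw [Finset.prod_range_succ]
  unfold uu
  rw [e1]
  push_cast
  rw [div_le_div_iff₀ (by positivity) (by positivity)]
  have h2 := Real.rpow_le_rpow (by positivity) (base n) hu
  rw [Real.mul_rpow (Real.exp_pos _).le (by positivity), ← Real.exp_mul] at h2
  have e3 : 4 / (2 * (n : ℝ) + 1) * ((1 - 2 * x) / 2) = 2 * (1 - 2 * x) / (2 * n + 1) := by ring
  rw [e3] at h2
  have h3 := ratio h0 h1 n
  calc s x n * (((n : ℝ) + 1) ^ 2 + 1 / 12) ^ ((1 - 2 * x) / 2)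
      ≤ s x n * (Real.exp (2 * (1 - 2 * x) / (2 * n + 1)) * ((n : ℝ) ^ 2 + 1 / 12) ^ ((1 - 2 * x) / 2)) := by
        gcongr
    _ ≤ s x n * ((1 - x + n) / (x + n) * ((n : ℝ) ^ 2 + 1 / 12) ^ ((1 - 2 * x) / 2)) := by
        gcongr
    _ = _ := by ring

lemma uu_mono' {x : ℝ} (h0 : 0 < x) (h1 : x < 1 / 2) {N n : ℕ} (h : N ≤ n) : uu x N ≤ uu x n :=
  monotone_nat_of_le_succ (uu_mono h0 h1) h

lemma gs_ge {x : ℝ} (h0 : 0 < x) (h1 : x < 1 / 2) (N : ℕ) : uu x N ≤ Gs x := by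
  have hlim : Tendsto (fun n : ℕ => Real.GammaSeq x n / Real.GammaSeq (1 - x) n) atTop
      (𝓝 (Real.Gamma x / Real.Gamma (1 - x))) :=
    (Real.GammaSeq_tendsto_Gamma x).div (Real.GammaSeq_tendsto_Gamma (1 - x))
      (Real.Gamma_pos_of_pos (by linarith)).ne'
  refine ge_of_tendsto hlim ?_
  filter_upwards [eventually_ge_atTop (N + 1)] with n hnN
  have hn : 1 ≤ n := by omega
  have hn0 : (1 : ℝ) ≤ n := by exact_mod_cast hn
  have hnp : (0 : ℝ) < n := by linarith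
  have hp2 : 0 < (n : ℝ) ^ (1 - 2 * x) := Real.rpow_pos_of_pos hnp _
  have e1 : Real.GammaSeq x n / Real.GammaSeq (1 - x) n = s x (n + 1) / (n : ℝ) ^ (1 - 2 * x) := by
    unfold Real.GammaSeq s
    rw [Finset.prod_div_distrib]
    have hq1 : 0 < ∏ j ∈ range (n + 1), (x + (j : ℝ)) :=
      Finset.prod_pos fun j _ => by positivity
    have hq2 : 0 < ∏ j ∈ range (n + 1), (1 - x + (j : ℝ)) :=
      Finset.prod_pos fun j _ => by
        have : (0 : ℝ) ≤ j := Nat.cast_nonneg j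
        linarith
    have hf : (0 : ℝ) < (n.factorial : ℝ) := by exact_mod_cast Nat.factorial_pos n
    have e3 : (n : ℝ) ^ (1 - x) = (n : ℝ) ^ x * (n : ℝ) ^ (1 - 2 * x) := by
      rw [← Real.rpow_add hnp]
      congr 1
      ring
    have hp3 : 0 < (n : ℝ) ^ x := Real.rpow_pos_of_pos hnp _
    rw [e3]
    field_simp
  rw [e1]
  refine (uu_mono' h0 h1 (show N ≤ n + 1 by omega)).trans ?_
  unfold uu
  have hs := s_pos h0 h1 (n + 1)
  have h3 : (n : ℝ) ^ (1 - 2 * x) ≤ (((n + 1 : ℕ) : ℝ) ^ 2 + 1 / 12) ^ ((1 - 2 * x) / 2) := by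
    have e4 : (n : ℝ) ^ (1 - 2 * x) = ((n : ℝ) ^ 2) ^ ((1 - 2 * x) / 2) := by
      rw [← Real.rpow_natCast, ← Real.rpow_mul hnp.le]
      congr 1
      push_cast
      ring
    rw [e4]
    refine Real.rpow_le_rpow (by positivity) ?_ (by linarith)
    push_cast
    nlinarith
  gcongr

lemma A_le : Gs (1 / 4) ≤ 2.9588 := by
  refine (NUI.gs_le (by norm_num) (by norm_num) (N := 25) (by norm_num)).trans ?_
  unfold tt
  have h1 : ((25 : ℕ) : ℝ) ^ (1 - 2 * (1 / 4) : ℝ) = 5 := by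
    rw [show (1 - 2 * (1 / 4) : ℝ) = 1 / 2 by norm_num, ← Real.sqrt_eq_rpow,
      show ((25 : ℕ) : ℝ) = 5 ^ 2 by norm_num, Real.sqrt_sq (by norm_num)]
  rw [h1]
  simp only [s, Finset.prod_range_succ, Finset.prod_range_zero]
  norm_num

lemma B_le : Gs (1 / 6) ≤ 4.9315 := by
  refine (NUI.gs_le (by norm_num) (by norm_num) (N := 27) (by norm_num)).trans ?_
  unfold tt
  have h1 : ((27 : ℕ) : ℝ) ^ (1 - 2 * (1 / 6) : ℝ) = 9 := by
    rw [show ((27 : ℕ) : ℝ) = 3 ^ (3 : ℝ) by norm_num, ← Real.rpow_mul (by norm_num)]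
    norm_num
  rw [h1]
  simp only [s, Finset.prod_range_succ, Finset.prod_range_zero]
  norm_num

lemma B_ge : 4.931 ≤ Gs (1 / 6) := by
  refine le_trans ?_ (gs_ge (x := 1 / 6) (by norm_num) (by norm_num) 24)
  unfold uu
  have h0 : (0 : ℝ) ≤ ((24 : ℕ) : ℝ) ^ 2 + 1 / 12 := by positivity
  rw [le_div_iff₀ (by positivity)]
  have h1 : (((24 : ℕ) : ℝ) ^ 2 + 1 / 12) ^ ((1 - 2 * (1 / 6)) / 2 : ℝ) ≤ s (1 / 6) 24 / 4.931 := by
    have h2 : ((1 - 2 * (1 / 6)) / 2 : ℝ) = (3 : ℝ)⁻¹ := by norm_num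
    rw [h2]
    have h3 : 0 ≤ s (1 / 6) 24 / 4.931 := by
      have := s_pos (x := 1 / 6) (by norm_num) (by norm_num) 24
      positivity
    rw [Real.rpow_inv_le_iff_of_pos h0 h3 (by norm_num)]
    simp only [s, Finset.prod_range_succ, Finset.prod_range_zero]
    norm_num
  calc (4.931 : ℝ) * _ ≤ 4.931 * (s (1 / 6) 24 / 4.931) := by gcongr
    _ = s (1 / 6) 24 := by ring

lemma D_ge : 1.978 ≤ Gs (1 / 3) := by
  refine le_trans ?_ (gs_ge (x := 1 / 3) (by norm_num) (by norm_num) 10)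
  unfold uu
  have h0 : (0 : ℝ) ≤ ((10 : ℕ) : ℝ) ^ 2 + 1 / 12 := by positivity
  rw [le_div_iff₀ (by positivity)]
  have h1 : (((10 : ℕ) : ℝ) ^ 2 + 1 / 12) ^ ((1 - 2 * (1 / 3)) / 2 : ℝ) ≤ s (1 / 3) 10 / 1.978 := by
    have h2 : ((1 - 2 * (1 / 3)) / 2 : ℝ) = (6 : ℝ)⁻¹ := by norm_num
    rw [h2]
    have h3 : 0 ≤ s (1 / 3) 10 / 1.978 := by
      have := s_pos (x := 1 / 3) (by norm_num) (by norm_num) 10
      positivity
    rw [Real.rpow_inv_le_iff_of_pos h0 h3 (by norm_num)]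
    simp only [s, Finset.prod_range_succ, Finset.prod_range_zero]
    norm_num
  calc (1.978 : ℝ) * _ ≤ 1.978 * (s (1 / 3) 10 / 1.978) := by gcongr
    _ = s (1 / 3) 10 := by ring

lemma GA2 : GA 2 = Gs (1 / 4) := by
  unfold GA Gs
  norm_num

lemma GA3 : GA 3 = Gs (1 / 6) := by
  unfold GA Gs
  norm_num

lemma GG1 : GGr (1 / 3) ^ 6 = 4 * Gs (1 / 6) ^ 6 / 6 ^ 6 := by
  unfold GGr Gs
  have h1 : Real.Gamma (1 + 1 / 3 / 2) = 1 / 6 * Real.Gamma (1 / 6) := by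
    rw [show (1 + 1 / 3 / 2 : ℝ) = 1 / 6 + 1 by norm_num, Real.Gamma_add_one (by norm_num)]
  have h2 : ((2 : ℝ) ^ (1 / 3 : ℝ)) ^ 6 = 4 := by
    rw [← Real.rpow_natCast, ← Real.rpow_mul (by norm_num)]
    norm_num
  rw [h1, show (1 - 1 / 3 / 2 : ℝ) = 1 - 1 / 6 by norm_num, div_pow, mul_pow, mul_pow, h2, div_pow]
  ring

lemma GG2 : GGr (2 / 3) ^ 3 = 4 * Gs (1 / 3) ^ 3 / 27 := by
  unfold GGr Gs
  have h1 : Real.Gamma (1 + 2 / 3 / 2) = 1 / 3 * Real.Gamma (1 / 3) := by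
    rw [show (1 + 2 / 3 / 2 : ℝ) = 1 / 3 + 1 by norm_num, Real.Gamma_add_one (by norm_num)]
  have h2 : ((2 : ℝ) ^ (2 / 3 : ℝ)) ^ 3 = 4 := by
    rw [← Real.rpow_natCast, ← Real.rpow_mul (by norm_num)]
    norm_num
  rw [h1, show (1 - 2 / 3 / 2 : ℝ) = 1 - 1 / 3 by norm_num, div_pow, mul_pow, mul_pow, h2, div_pow]
  ring

lemma GGr_pos {θ : ℝ} (h0 : 0 ≤ θ) (h1 : θ ≤ 1) : 0 < GGr θ := by
  unfold GGr
  have h2 := Real.Gamma_pos_of_pos (show 0 < 1 + θ / 2 by linarith)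
  have h3 := Real.Gamma_pos_of_pos (show 0 < 1 - θ / 2 by linarith)
  positivity

lemma Gs_pos {x : ℝ} (h0 : 0 < x) (h1 : x < 1) : 0 < Gs x := by
  unfold Gs
  have h2 := Real.Gamma_pos_of_pos h0
  have h3 := Real.Gamma_pos_of_pos (show 0 < 1 - x by linarith)
  positivity

theorem t : R_NB2 := by
  have hA := A_le
  have hB := B_le
  have hB' := B_ge
  have hD := D_ge
  have hA0 := Gs_pos (x := 1 / 4) (by norm_num) (by norm_num)
  have hB0 := Gs_pos (x := 1 / 6) (by norm_num) (by norm_num)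
  have hD0 := Gs_pos (x := 1 / 3) (by norm_num) (by norm_num)
  have hG1 := GGr_pos (θ := 1 / 3) (by norm_num) (by norm_num)
  have hG2 := GGr_pos (θ := 2 / 3) (by norm_num) (by norm_num)
  unfold R_NB2
  rw [GA2, GA3]
  refine ⟨?_, ?_, ?_, by linarith, by linarith⟩
  · refine le_of_pow_le_pow_left₀ (n := 12) (by norm_num) (by positivity) ?_
    have e1 : ((Gs (1 / 4) ^ 4 * 0.8757) ^ ((1 / 3 : ℝ) / 4)) ^ 12 = Gs (1 / 4) ^ 4 * 0.8757 := by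
      rw [← Real.rpow_natCast, ← Real.rpow_mul (by positivity)]
      norm_num
    have e2 : (GGr (1 / 3) ^ (1 / 2 : ℝ)) ^ 12 = GGr (1 / 3) ^ 6 := by
      rw [← Real.rpow_natCast, ← Real.rpow_mul hG1.le, ← Real.rpow_natCast]
      norm_num
    rw [mul_pow, e1, e2, GG1]
    have h1 : Gs (1 / 4) ^ 4 ≤ 2.9588 ^ 4 := pow_le_pow_left₀ hA0.le hA 4
    have h2 : 4.931 ^ 6 ≤ Gs (1 / 6) ^ 6 := pow_le_pow_left₀ (by norm_num) hB' 6
    have h3 : (2.9588 : ℝ) ^ 4 * 0.8757 ≤ 1.3955 ^ 12 * (4 * 4.931 ^ 6 / 6 ^ 6) := by norm_num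
    calc Gs (1 / 4) ^ 4 * 0.8757 ≤ (2.9588 : ℝ) ^ 4 * 0.8757 := by gcongr
      _ ≤ 1.3955 ^ 12 * (4 * 4.931 ^ 6 / 6 ^ 6) := h3
      _ ≤ _ := by gcongr
  · refine le_of_pow_le_pow_left₀ (n := 6) (by norm_num) (by positivity) ?_
    have e1 : ((Gs (1 / 4) ^ 4 * 0.9153) ^ ((2 / 3 : ℝ) / 4)) ^ 6 = Gs (1 / 4) ^ 4 * 0.9153 := by
      rw [← Real.rpow_natCast, ← Real.rpow_mul (by positivity)]
      norm_num
    have e2 : (GGr (2 / 3) ^ (1 / 2 : ℝ)) ^ 6 = GGr (2 / 3) ^ 3 := by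
      rw [← Real.rpow_natCast, ← Real.rpow_mul hG2.le, ← Real.rpow_natCast]
      norm_num
    rw [mul_pow, e1, e2, GG2]
    have h1 : Gs (1 / 4) ^ 4 ≤ 2.9588 ^ 4 := pow_le_pow_left₀ hA0.le hA 4
    have h2 : 1.978 ^ 3 ≤ Gs (1 / 3) ^ 3 := pow_le_pow_left₀ (by norm_num) hD 3
    have h3 : (2.9588 : ℝ) ^ 4 * 0.9153 ≤ 1.986 ^ 6 * (4 * 1.978 ^ 3 / 27) := by norm_num
    calc Gs (1 / 4) ^ 4 * 0.9153 ≤ (2.9588 : ℝ) ^ 4 * 0.9153 := by gcongr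
      _ ≤ 1.986 ^ 6 * (4 * 1.978 ^ 3 / 27) := h3
      _ ≤ _ := by gcongr
  · refine le_of_pow_le_pow_left₀ (n := 12) (by norm_num) (by norm_num) ?_
    have e1 : (Gs (1 / 4) ^ (1 - (1 / 2 : ℝ))) ^ 12 = Gs (1 / 4) ^ 6 := by
      rw [← Real.rpow_natCast, ← Real.rpow_mul hA0.le, ← Real.rpow_natCast]
      norm_num
    have e2 : ((Gs (1 / 6) ^ 6 * 0.9) ^ ((1 / 2 : ℝ) / 6)) ^ 12 = Gs (1 / 6) ^ 6 * 0.9 := by
      rw [← Real.rpow_natCast, ← Real.rpow_mul (by positivity)]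
      norm_num
    rw [mul_pow, e1, e2]
    have h1 : Gs (1 / 4) ^ 6 ≤ 2.9588 ^ 6 := pow_le_pow_left₀ hA0.le hA 6
    have h2 : Gs (1 / 6) ^ 6 ≤ 4.9315 ^ 6 := pow_le_pow_left₀ hB0.le hB 6
    have h3 : (2.9588 : ℝ) ^ 6 * (4.9315 ^ 6 * 0.9) ≤ 3.79 ^ 12 := by norm_num
    calc Gs (1 / 4) ^ 6 * (Gs (1 / 6) ^ 6 * 0.9) ≤ (2.9588 : ℝ) ^ 6 * (4.9315 ^ 6 * 0.9) := by gcongr
      _ ≤ _ := h3

end Pool.Agent.H29.RP.NB2
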